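import Pool.Agent.UL3.Defs

/-!
# Squad UL3: statements

One statement per row; every docstring contains a complete proof.
-/

set_option autoImplicit false

namespace Pool.Agent.UL3

open MeasureTheory Set

/-! ### Block A: the plane -/

/-- **PAA** (medium, no hypotheses).  An admissible lattice from a boundary point.
PROOF.  `0` is an interior point of `M` (`PB.zero_mem`), so `a ≠ 0`. The set of the `p ∈ M` with `p - a ∈ M` is compact and contains `a`; let `b` be one with `cr a b` maximal, `τ = cr a b`. With `w ∈ M` small, `p = a / 2 + w`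
and `p - a = - a / 2 + w` are in `M` (for `w ∈ M/2`), so `τ > 0`. Line at level `τ`: `{p | cr a p = τ} = b + ℝ a`. If no interior point of `M` is on this line, put nothing more. Otherwise move `b` along the line so that
`b` is the last point of `M` in direction `a` (maximal `s` with `b + s a ∈ M`; then still `b - a ∈ M` by convexity: `b_old - a`, `b_new ∈ M`). CLAIM: no point `b + s a`, `s ≤ -1`, is interior: if it were, with `b ∈ M`
all points of the segment `[b + s a, b)` are interior, so there is a segment of length `> |a|` (slightly above the line and still in `M`): precisely `p' = b - δ a + δ' w`, with `cr a w > 0`, and `p' - a` are both interior, with `cr a p' > τ`,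
contradiction to the maximality. And no `b + s a`, `s ≥ 0`, is interior (`b` is the last point). So for `n = ± 1` the points `m a ± b` are not interior (symmetry). `n = 0`: `m a`, `m ≠ 0`, is not interior, because `a` is not and `0` is (`a = (1/m) (m a)`).
`|n| ≥ 2`: suppose `p` interior with `cr a p ≥ 2 τ`; scaling (`0` interior) `cr a p = 2 τ`, `p` interior; then `(p + a)/2`, `(p - a)/2` are interior (midpoints with `± a ∈ M`), they are on the line `τ` and differ by `a`: both are interior,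
then `(p+a)/2 + ε w`, `(p - a)/2 + ε w` contradict the maximality of `τ`. -/
def PaaStmt : Prop :=
  ∀ M : Set (ℝ × ℝ), PB M → ∀ a : ℝ × ℝ, a ∈ M → a ∉ interior M →
    ∃ b : ℝ × ℝ, b ∈ M ∧ b - a ∈ M ∧ Adm2 M a b ∧ 0 < cr a b

/-- **PAB** (medium, uses PAA).  A minimal admissible hexagon.
PROOF.  The set `S` of the pairs `(a, b) ∈ M × M` with `b - a ∈ M`, `Adm2 M a b`, `0 ≤ cr a b` is closed in `M × M`, so compact, and nonempty (PAA for a boundary point, e.g. `a = s x`, `s` maximal with `s x ∈ M`, `x ≠ 0`). Let `(a, b)` be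
an element with `cr a b` minimal. Suppose `cr a b = 0`. `a ≠ 0`, so `b = β a`. `a` is not interior (`Adm2` with `m = 1`, `n = 0`), so `s a ∈ M` implies `|s| ≤ 1` (otherwise `a` is interior: it is between the interior point `0` and
`s a`), and `|s| < 1` implies `s a` interior. `b ∈ M`, `b` not interior (`m = 0`, `n = 1`): `β = ± 1`; `β = 1`: `b - a = 0` is interior, but `Adm2` with `(-1, 1)`; `β = -1`: `b - a = - 2 a ∈ M`, contradiction. So `0 < cr a b`. -/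
def PabStmt : Prop :=
  ∀ M : Set (ℝ × ℝ), PB M → ∃ a b : ℝ × ℝ, a ∈ M ∧ b ∈ M ∧ b - a ∈ M ∧ Adm2 M a b ∧ 0 < cr a b ∧
    ∀ a' b' : ℝ × ℝ, a' ∈ M → b' ∈ M → b' - a' ∈ M → Adm2 M a' b' → 0 < cr a' b' →
      cr a b ≤ cr a' b'

/-- **PAC** (medium, no hypotheses).  The area of a dodecagon.
PROOF.  Level of `p`: `τ = p.2 - p.1`; coordinates `(τ, p.1)` (a linear map of determinant `± 1`). Let `ℓ τ` be the length of the section of `M` at level `τ`, in the coordinate `p.1`. If a segment of length `≥ l` is in `M` at level `τ` and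
one of length `≥ l'` at level `τ'`, then at the level `(1-s) τ + s τ'` there is one of length `≥ (1-s) l + s l'`. Level `0`: from `-(x,x)` to `(x,x)`, length `2 x`. Level `1`: from `(-1,0)` to `(0,1)`, length `1`. Level
`τ₁ = 1/x ∈ [1,2]`: at the level `q.2 - q.1 ≥ 1/x` there is one of length `x` (from `q - (x,x)` to `q`), at level `0` of length `2 x`, so at level `τ₁` of length `≥ x`. Level `2`: `(-1,1)`, length `0`. So
`∫_0^2 ℓ ≥ (2x + 1)/2 + (1 + x)/2 * (1/x - 1) + x/2 * (2 - 1/x) = (3 x + 1/x)/2`, the levels in `[-2,0]` give the same (symmetry), and `volume.real M ≥ ∫_(-2)^2 ℓ` (Fubini). -/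
def PacStmt : Prop :=
  ∀ M : Set (ℝ × ℝ), PB M → ∀ (x : ℝ) (q : ℝ × ℝ), 1 / 2 ≤ x → x ≤ 1 →
    ((1, 0) : ℝ × ℝ) ∈ M → ((0, 1) : ℝ × ℝ) ∈ M → ((-1, 1) : ℝ × ℝ) ∈ M →
    ((x, x) : ℝ × ℝ) ∈ M → q ∈ M → q - (x, x) ∈ M → 1 / x ≤ q.2 - q.1 →
    3 * x + 1 / x ≤ (volume : Measure (ℝ × ℝ)).real M

/-- **PLN** (medium, uses PAA PAB PAC).  The plane lemma.
PROOF.  `(a, b)` of PAB, `D = cr a b`, `Φ p = p.1 • a + p.2 • b` (a linear automorphism), `M' = Φ⁻¹ M`, `PB M'`, `volume.real M = D * volume.real M'`, `cr (Φ p) (Φ q) = D * cr p q`; `(1,0), (0,1), (-1,1) ∈ M'` and `(1,1)` is not interior in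
`M'` (`Adm2`). Let `x` be maximal with `(x,x) ∈ M'`: `x ≥ 1/2` (midpoint of `(1,0)`, `(0,1)`), `x ≤ 1` (else `(1,1)` is between `0` and `(x,x)`, so interior), `(x,x)` is not interior. PAA for `M` and `Φ (x,x)`: `Φ q ∈ M`, `Φ q - Φ (x,x) ∈ M`,
admissible, `0 < cr`, so `D ≤ cr (Φ (x,x)) (Φ q) = D * x * (q.2 - q.1)` (PAB), `1/x ≤ q.2 - q.1`. PAC: `volume.real M ≥ D (3 x + 1/x) ≥ D * 2 sqrt 3`, since `3 x + 1/x ≥ 2 sqrt 3` (`(sqrt 3 x - 1)^2 ≥ 0` divided by `x`). -/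
def PlnStmt : Prop :=
  ∀ M : Set (ℝ × ℝ), PB M → ∃ a b : ℝ × ℝ, Adm2 M a b ∧ 0 < cr a b ∧
    2 * Real.sqrt 3 * cr a b ≤ (volume : Measure (ℝ × ℝ)).real M

/-! ### Block B: stacking -/

/-- **AVD** (medium, no hypotheses).  A set of small area misses a translate of the lattice.
PROOF.  `F = {s • a + t • b | s, t ∈ [0,1)}` has area `cr a b` and its translates by `m a + n b` are a partition of the plane. If every `z ∈ F` is in some `S - (m a + n b)`, then `F = ⋃_(m,n) F ∩ (S - g)`, so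
`volume F ≤ ∑_g volume (F ∩ (S - g)) = ∑_g volume ((F + g) ∩ S) = volume S < cr a b`, contradiction. (`ZSpan.isAddFundamentalDomain`, `IsAddFundamentalDomain.measure_eq_tsum`, or directly.) -/
def AvdStmt : Prop :=
  ∀ (a b : ℝ × ℝ) (S : Set (ℝ × ℝ)), 0 < cr a b → MeasurableSet S →
    volume S < ENNReal.ofReal (cr a b) → ∃ z : ℝ × ℝ, ∀ m n : ℤ, z + (m : ℝ) • a + (n : ℝ) • b ∉ S

/-- **HGT** (easy, no hypotheses).  The height.
PROOF.  `K` is compact and nonempty, `x ↦ x 2` is continuous: the supremum is attained; symmetry; a small multiple of the third basis vector is in `K`. -/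
def HgtStmt : Prop :=
  ∀ K : Set E3, SB K → 0 < hgt K ∧ (∀ x ∈ K, |x 2| ≤ hgt K) ∧ ∃ x ∈ K, x 2 = hgt K

/-- **SEC** (easy-medium, no hypotheses).  Sections.
PROOF.  `p ↦ up p t` is affine and continuous; closed embedding, so preimages of compact convex sets are compact and convex. `up 0 0 = 0` is interior. If `up p 0 ∈ interior K` then a neighbourhood of `p` is in the section, so `p ∈ interior (sec K 0)`. -/
def SecStmt : Prop :=
  ∀ K : Set E3, SB K → PB (sec K 0) ∧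
    (∀ t, IsCompact (sec K t) ∧ Convex ℝ (sec K t) ∧ sec K (-t) = -sec K t ∧ al K (-t) = al K t) ∧
    (∀ p, up p 0 ∈ interior K → p ∈ interior (sec K 0)) ∧ 0 < al K 0 ∧
    ∀ t, hgt K < |t| → sec K t = ∅

/-- **STK** (medium, uses AVD HGT SEC).  Stacking.
PROOF.  `sec K t` is compact of area `< cr a b`: `z` of AVD, `v = ![up a 0, up b 0, up z t]`. `∑ n_i v_i = up (n_0 a + n_1 b + n_2 z) (n_2 t)`. `n_2 = 0`: not interior in `K`, else `n_0 a + n_1 b` is interior in `sec K 0` (SEC). `n_2 = 1`: not in `K`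
(AVD). `n_2 = -1`: the negative of such a point, symmetry. `|n_2| ≥ 2`: the third coordinate has absolute value `≥ 2 t ≥ hgt K`; an interior point has third coordinate of absolute value `< hgt K` (move a little in direction of the third basis
vector, HGT). The determinant: `|cr a b * t|` (`Matrix.det_fin_three`). -/
def StkStmt : Prop :=
  ∀ K : Set E3, SB K → ∀ (a b : ℝ × ℝ) (t : ℝ), Adm2 (sec K 0) a b → 0 < cr a b → 0 < t →
    hgt K ≤ 2 * t → al K t < cr a b → ∃ v : Fin 3 → E3, Adm K v ∧ dt v = cr a b * t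

/-! ### Block C: sections and profiles -/

/-- **CCV** (medium, uses SEC).  Brunn-Minkowski for the sections.
PROOF.  For `s, t ∈ [-h, h]` and weights `a + b = 1`: `a • sec K s + b • sec K t ⊆ sec K (a s + b t)`, all compact and nonempty (the section at height `s ∈ [-h,h]` contains a point of the segment between a highest point and its negative).
Brunn-Minkowski in dimension two (`BM64.bm_rpow`, `Pool.Agent.Helper64_BM.Main`, for `ℝ × ℝ`, `finrank = 2`) and `volume (a • S) = a ^ 2 volume S` give `sqrt (al K (a s + b t)) ≥ a sqrt (al K s) + b sqrt (al K t)`. -/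
def CcvStmt : Prop :=
  ∀ K : Set E3, SB K → ConcaveOn ℝ (Icc (-hgt K) (hgt K)) (fun t => Real.sqrt (al K t))

/-- **FUB** (medium, no hypotheses).  Fubini for the sections of a compact set.
PROOF.  `x ↦ ((x 0, x 1), x 2)` is a measure preserving equivalence of `E3` and `(ℝ × ℝ) × ℝ` (`EuclideanSpace.volume_preserving_symm_measurableEquiv_toLp`, `MeasurableEquiv.piFinSuccAbove` / `volume_preserving_...`, or
`volume_preserving_piFinTwo`), and `Measure.prod_apply`, `integral_prod`. The section areas are bounded with bounded support, so everything is integrable. -/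
def FubStmt : Prop :=
  ∀ K : Set E3, IsCompact K → Integrable (al K) ∧
    (∀ g : ℝ → ℝ, Continuous g → Integrable (fun t => g t * al K t) ∧
      ∫ x in K, g (x 2) = ∫ t, g t * al K t) ∧
    ∀ δ : ℝ, V {x | x ∈ K ∧ |x 2| ≤ δ} = ∫ t in Icc (-δ) δ, al K t

/-- **HCN** (easy).  The cone.
PROOF.  `G x ≥ 1 - x / H` (concavity, `G 0 = 1`, `G H ≥ 0`), `∫_0^H (1 - x/H)^2 = H/3`. (`G` is concave, so continuous inside: integrable; `G ^ 2` is bounded and monotone.) -/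
def HcnStmt : Prop :=
  ∀ (H : ℝ) (G : ℝ → ℝ), 0 < H → ConcaveOn ℝ (Icc 0 H) G → G 0 = 1 → 0 ≤ G H →
    IntervalIntegrable (fun x => G x ^ 2) volume 0 H → H / 3 ≤ ∫ x in (0 : ℝ)..H, G x ^ 2

/-- **TZR** (medium, uses PLN STK HGT SEC CCV FUB).  The critical height.
PROOF.  `h = hgt K`, `α = al K`. By CCV, `α` even and `sqrt (α h) ≥ 0`: `α t ≥ (1 - |t|/h)^2 α 0` on `[-h,h]`, so `V K = ∫ α ≥ (2/3) h α(0)` (FUB with `g = 1`). `t₀ = 3 V/(4 α 0)`, so `h ≤ 2 t₀`. `PB (sec K 0)` (SEC); `a, b` of PLN, scaled by a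
factor `c ≥ 1` (`Adm2` is preserved: if `m c a + n c b` is interior, so is `m a + n b`, between it and the interior point `0`) so that `cr a b = α 0/(2 sqrt 3)` exactly. If `α t₀ < α 0/(2 sqrt 3)`, then STK gives `v` with
`dt v = α 0/(2 sqrt 3) * 3 V/(4 α 0) = sqrt 3/8 V`: `Good K`, contradiction. So `α t₀ ≥ α 0/(2 sqrt 3) > 0` and `t₀ ≤ h` (SEC). -/
def TzrStmt : Prop :=
  ∀ K : Set E3, SB K → ¬ Good K → 3 * V K / (4 * al K 0) ≤ hgt K ∧
    al K 0 / (2 * Real.sqrt 3) ≤ al K (3 * V K / (4 * al K 0))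

/-- **GPF** (medium, uses TZR HGT SEC CCV FUB).  The profile.
PROOF.  `f = α 0/V`, `H = h f`, `G x = sqrt (α (x/f)/α 0)`. Concave (CCV, composition with a linear map, division by the constant `sqrt (α 0)`), `G 0 = 1`, `G ≤ 1`: `sqrt α` is even and concave. `∫_0^H G^2 = (f/α 0) ∫_0^h α = (1/V) (V/2)`. `3/4 ≤ H`
and `G (3/4)^2 = α (t₀)/α 0 ≥ 1/(2 sqrt 3) ≥ 0.5372^2` (TZR, `t₀ = (3/4)/f`). `∫_0^H x^2 G^2 = f^3/α 0 ∫_0^h t^2 α = f^2/(2 V) ∫_K x_2^2`. -/
def GpfStmt : Prop :=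
  ∀ K : Set E3, SB K → ¬ Good K → ∃ G : ℝ → ℝ, Pf (hgt K * (al K 0 / V K)) G ∧
    ∫ x in (0 : ℝ)..(hgt K * (al K 0 / V K)), x ^ 2 * G x ^ 2 =
      (al K 0 / V K) ^ 2 / (2 * V K) * ∫ x in K, (x 2) ^ 2

/-! ### Block E: one variable -/

/-- **EEA** (medium, no hypotheses).  The second moment from below.
PROOF.  `s = 0.5372`, `Λ` the piecewise linear function through `(0,1)`, `(3/4, s)`, `(H, 0)`; `Λ ≤ G` (concavity; if `H = 3/4` only the first piece). `η = H - 3/4`. `∫ Λ^2 = (1 + s + s^2)/4 + η s^2/3 = 0.456445.. + 0.0961946.. η ≤ 1/2`.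
`∫_0^(3/4) x^2 Λ^2 = (27/64) (1/3 - λ/2 + λ^2/5) ≥ 0.061074`, `λ = 1 - s`, `∫_(3/4)^H x^2 Λ^2 ≥ (9/16) η s^2/3`. `E = ∫ (G^2 - Λ^2) = 1/2 - ∫ Λ^2 ∈ [0, 0.04356]`. For `x₀ = 1/4`: `(x^2 - x₀^2)(G^2 - Λ^2) ≥ 0` for `x ≥ x₀` and
`≥ (x^2 - x₀^2)(1 - Λ^2) ≥ - (x₀^2 - x^2) 2 k x`, `k = 4 λ/3`, for `x ≤ x₀`; so `∫ x^2 (G^2 - Λ^2) ≥ x₀^2 E - k x₀^4/2 = E/16 - k/512`. Sum: `∫ x^2 G^2 ≥ 0.061074 + η (9/16)(0.28858/3) + (0.043554 - 0.0961946 η)/16 - 0.0012052 ≥ 0.06259`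
(the coefficient of `η` is `0.05411 - 0.00601 > 0`). -/
def EeaStmt : Prop :=
  ∀ (H : ℝ) (G : ℝ → ℝ), Pf H G → 6231 / 100000 ≤ ∫ x in (0 : ℝ)..H, x ^ 2 * G x ^ 2

/-- **EEB** (medium, no hypotheses).  The height from above.
PROOF.  `Λ`, `η` as in EEA. `∫ Λ^2 ≤ 1/2` gives `η ≤ 0.4528`. `∫ x^2 G^2 ≥ ∫ x^2 Λ^2 = J η`, `J η = (27/64)(1/3 - λ/2 + λ^2/5) + s^2 η (3/16 + η/8 + η^2/30)`. CLAIM `2 J η ≥ (3/4 + η)^2/7.84` for `0 ≤ η ≤ 0.4528`: at the right end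
`0.18772.. ≥ 0.18455..`; the difference is decreasing-then-convex: `2 * 0.061074 - (9/16)/7.84 + η (2 s^2 * 3/16 - 1.5/7.84) + η^2 (s^2/4 - 1/7.84) + η^3 s^2/15` with negative coefficients of `η`, `η^2`: it is at least
`0.122148 - 0.071747 - 0.083110 η - 0.055406 η^2 ≥ 0.050401 - 0.037633 - 0.011360 > 0`. -/
def EebStmt : Prop :=
  ∀ (H : ℝ) (G : ℝ → ℝ), Pf H G → H ^ 2 / (784 / 100) ≤ 2 * ∫ x in (0 : ℝ)..H, x ^ 2 * G x ^ 2

/-- **EEC** (medium, no hypotheses).  The second moment from above.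
PROOF.  `m = 1/(2 H) ≤ 2/3`, `m ≥ 1/3` (HCN: `G x ≥ 1 - x/H`). `λ = (3 - sqrt (12 m - 3))/2 ∈ [0.38, 1]`: `1 - λ + λ^2/3 = m` (`12 m - 3 ≤ 5`, `sqrt 5 ≤ 2.24`). `l x = 1 - λ x/H`, `∫_0^H l^2 = H m = 1/2 = ∫ G^2`. There is `x₀ ∈ [0,H]` with `G ≥ l` on `[0,x₀)` and
`G ≤ l` on `(x₀,H]` (`x₀` = supremum of `{x | G x ≥ l x}`: `G - l` is concave and `0` at `0`). So `(x^2 - x₀^2)(G^2 - l^2) ≤ 0` and `∫ x^2 G^2 ≤ ∫ x^2 l^2 + x₀^2 (∫ G^2 - ∫ l^2) = ∫ x^2 l^2 = H^3 (1/3 - λ/2 + λ^2/5)`, and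
`1/3 - λ/2 + λ^2/5 ≤ 0.25767 (1 - λ + λ^2/3)` for `0.38 ≤ λ ≤ 1` (difference of the sides: `0.0756633 - 0.24233 λ + 0.11411 λ^2 ≤ 0`: convex, at `0.38`: `≤ 0`? `0.0756633 - 0.0920854 + 0.0164775 = 0.0000554`, so use `λ ≥ 0.3819`:
`0.0756633 - 0.0925458 + 0.0166427 = -0.00024 < 0`, at `1`: `< 0`; `sqrt 5 ≤ 2.23607` gives `λ ≥ 0.38196`). So `2 ∫ x^2 G^2 ≤ 2 H^3 * 0.25767 * m = 0.25767 H^2 ≤ H^2/1.97^2` (`1.97^2 * 0.25767 = 0.99998 ≤ 1`). -/
def EecStmt : Prop :=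
  ∀ (H : ℝ) (G : ℝ → ℝ), Pf H G → 2 * ∫ x in (0 : ℝ)..H, x ^ 2 * G x ^ 2 ≤ H ^ 2 / (197 / 100) ^ 2

/-- **DIR** (medium, uses GPF EEA EEB EEC SEC CCV HGT FUB).  One direction.
PROOF.  `f = α 0/V`, `H = h f`. `∫_K x_2^2 = V`, so `∫_0^H x^2 G^2 = f^2/2`. EEA: `f^2 ≥ 0.12462 ≥ 0.353^2 = 0.124609`. EEC: `f^2 ≤ h^2 f^2/1.97^2`, so `h ≥ 1.97`. EEB: `h^2 f^2/7.84 ≤ f^2`, so `h ≤ 2.8`. Slab: `α t ≥ (1 - |t|/h)^2 α 0 ≥ (1 - 2|t|/h) α 0`
for `|t| ≤ h` (CCV, even), so for `δ ≤ h` the volume of the slab is `≥ 2 δ (1 - δ/h) α 0 ≥ 2 δ (1 - δ/1.97) 0.353 V` (if `δ < 1.97`; for `δ ≥ 1.97` the right side is `≤ 0`; `1 - δ/h ≥ 1 - δ/1.97 ≥ 0`). -/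
def DirStmt : Prop :=
  ∀ K : Set E3, SB K → ¬ Good K → (∫ x in K, (x 2) ^ 2) = V K →
    197 / 100 ≤ hgt K ∧ hgt K ≤ 14 / 5 ∧
    ∀ δ : ℝ, 0 ≤ δ → 2 * δ * (1 - δ / (197 / 100)) * (353 / 1000) * V K ≤
      V {x | x ∈ K ∧ |x 2| ≤ δ}

/-! ### Block F: all directions -/

/-- **INV** (easy-medium, no hypotheses).  Linear invariance.
PROOF.  `T '' K` is a symmetric convex body; `interior (T '' K) = T '' interior K` (homeomorphism). If `v` is good for `T '' K`, then `T.symm ∘ v` is admissible for `K`; `dt` and `V` are both divided by `|det T|` (`Measure.addHaar_image_continuousLinearEquiv`, and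
for `dt`: the matrix of `T.symm ∘ v` is the product of the matrix of `v` with the transpose of the matrix of `T.symm`). -/
def InvStmt : Prop :=
  ∀ (K : Set E3) (T : E3 ≃L[ℝ] E3), SB K → SB (T '' K) ∧ (Good (T '' K) → Good K)

/-- **ISO** (medium, no hypotheses).  Isotropic position.
PROOF.  `C_ij = (∫_K x_i x_j)/V K` is a symmetric positive definite matrix: `y^T C y = (∫_K (∑ y_i x_i)^2)/V > 0` for `y ≠ 0` (the integrand is positive except on a plane). So `C = A^T A` with `A` invertible (`Matrix.posDef_iff_eq_conjTranspose_mul_self` or the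
square root), `B = (A^T)⁻¹`, `B C B^T = 1`, `T` = the linear map with matrix `B`. `∫_(T K) y_i y_j dy = |det T| ∫_K (T x)_i (T x)_j dx = |det T| V(K) (B C B^T)_ij`, `V (T '' K) = |det T| V K`. -/
def IsoStmt : Prop :=
  ∀ K : Set E3, SB K → ∃ T : E3 ≃L[ℝ] E3, ∀ i j : Fin 3,
    ∫ x in T '' K, x i * x j = if i = j then V (T '' K) else 0

/-- **ROT** (easy-medium, no hypotheses).  Rotations.
PROOF.  Extend `u` to an orthonormal basis with `u` as the third vector (`Orthonormal.exists_orthonormalBasis_extension_of_card_eq` or similar) and take the coordinates (`OrthonormalBasis.repr`). -/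
def RotStmt : Prop :=
  ∀ u : E3, ‖u‖ = 1 → ∃ R : E3 ≃ₗᵢ[ℝ] E3, ∀ x : E3, (R x) 2 = inner ℝ x u

/-- **UNI** (medium, uses DIR INV ROT HGT).  Every direction.
PROOF.  `R` of ROT, `K' = R '' K`: `SB K'`, `¬ Good K'` (INV: if `Good K'` then `Good K`), `V K' = V K` (`R` preserves the volume), `∫_K' x_2^2 = ∫_K (inner x u)^2 = ∑_ij u_i u_j ∫_K x_i x_j = ‖u‖^2 V = V`. DIR for `K'`; a highest point of `K'` (HGT) is `R x`
with `inner x u = hgt K'`; `|inner x u| ≤ hgt K'` on `K`; the slab of `K'` is the image of the slab of `K`. -/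
def UniStmt : Prop :=
  ∀ K : Set E3, SB K → ¬ Good K → (∀ i j : Fin 3, ∫ x in K, x i * x j = if i = j then V K else 0) →
    ∀ u : E3, ‖u‖ = 1 → (∃ x ∈ K, 197 / 100 ≤ inner ℝ x u) ∧ (∀ x ∈ K, inner ℝ x u ≤ 14 / 5) ∧
      ∀ δ : ℝ, 0 ≤ δ → 2 * δ * (1 - δ / (197 / 100)) * (353 / 1000) * V K ≤
        V {x | x ∈ K ∧ |inner ℝ x u| ≤ δ}

/-- **INC** (easy-medium, no hypotheses).  Support function and balls.
PROOF.  (i) If `y ∉ K`, `‖y‖ ≤ a`: separate (`geometric_hahn_banach_compact_point` or similar): `w ≠ 0` with `inner x w < inner y w` for all `x ∈ K`; `u = w/‖w‖`: `inner y u ≤ ‖y‖ ≤ a`, but some `x ∈ K` has `inner x u ≥ a`. (ii) `x ≠ 0`, `u = x/‖x‖`: `‖x‖ = inner x u ≤ b`. -/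
def IncStmt : Prop :=
  ∀ (K : Set E3) (a b : ℝ), IsCompact K → Convex ℝ K → 0 < a → 0 < b →
    ((∀ u : E3, ‖u‖ = 1 → ∃ x ∈ K, a ≤ inner ℝ x u) → Metric.closedBall 0 a ⊆ K) ∧
    ((∀ u : E3, ‖u‖ = 1 → ∀ x ∈ K, inner ℝ x u ≤ b) → K ⊆ Metric.closedBall 0 b)

/-- **POL** (medium-strong, no hypotheses).  Polar coordinates.
PROOF.  `Measure.measurePreserving_homeomorphUnitSphereProd`: `∫_K ψ ‖x‖ = ∫_θ ∫_(r > 0, r θ ∈ K) ψ r r^2 dr dσ(θ)`. `K` is convex with `closedBall 0 a ⊆ K ⊆ closedBall 0 b` and closed: `{r > 0 | r θ ∈ K} = (0, ρ θ]` with `ρ θ ∈ [a,b]`. The inner integral is `≤ 0`.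
(Integrability: `|ψ r| r^2` is bounded on `(0,b]`.) -/
def PolStmt : Prop :=
  ∀ (K : Set E3) (a b : ℝ) (ψ : ℝ → ℝ), IsCompact K → Convex ℝ K → 0 < a →
    Metric.closedBall 0 a ⊆ K → K ⊆ Metric.closedBall 0 b →
    Continuous (fun r : ℝ => r ^ 2 * ψ r) → (∀ ρ ∈ Icc a b, ∫ r in (0 : ℝ)..ρ, r ^ 2 * ψ r ≤ 0) →
    IntegrableOn (fun x : E3 => ψ ‖x‖) K ∧ ∫ x in K, ψ ‖x‖ ≤ 0

/-- **NRV** (easy-medium, uses POL).  The mean of `1/‖x‖`.
PROOF.  `c = 0.4651`, `μ = 0.038`, `ψ r = r⁻¹ - 3 c/2 - (μ/2)(15 - 5 r^2)`, `a = 1.97`, `b = 2.8`: `∫_0^ρ r^2 ψ = ρ^2/2 - c ρ^3/2 - (μ/2)(5 ρ^3 - ρ^5) = (ρ^2/2)(1 - c ρ - μ (5 ρ - ρ^3)) ≤ 0` for `ρ ∈ [a,b]`: `c ρ + μ(5 ρ - ρ^3)` is concave, at `1.97` it is `1.0000228..`,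
at `2.8` it is `1.000104..`. So `∫_K ‖x‖⁻¹ ≤ (3 c/2) V + (μ/2)(15 V - 5 * 3 V) = 0.69765 V`. -/
def NrvStmt : Prop :=
  ∀ K : Set E3, IsCompact K → Convex ℝ K → Metric.closedBall 0 (197 / 100) ⊆ K →
    K ⊆ Metric.closedBall 0 (14 / 5) → (∫ x in K, ‖x‖ ^ 2) = 3 * V K →
    IntegrableOn (fun x : E3 => ‖x‖⁻¹) K ∧ ∫ x in K, ‖x‖⁻¹ ≤ 69765 / 100000 * V K

/-- **SLB** (medium, uses ROT).  Slabs of the unit ball.
PROOF.  `R` of ROT for `x/‖x‖` : the set is the preimage under `R` of `{u ∈ ball | |u_2| ≤ κ}`, `κ = ε/‖x‖`, which is contained in the cylinder `{u_0^2 + u_1^2 ≤ 1, |u_2| ≤ κ}` of volume `2 π κ` (Fubini; area of the unit disc `π`). -/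
def SlbStmt : Prop :=
  ∀ (x : E3) (ε : ℝ), x ≠ 0 → 0 < ε →
    V {u | u ∈ Metric.closedBall (0 : E3) 1 ∧ |inner ℝ x u| ≤ ε} ≤ 2 * Real.pi * ε / ‖x‖

/-- **BAL** (easy-medium, no hypotheses).  Two integrals over the unit ball.
PROOF.  `integral_fun_norm_addHaar` (`∫ f ‖x‖ = 3 * volume(ball) * ∫_(y > 0) y^2 f y`), volume of the unit ball `4 π/3` (`EuclideanSpace.volume_ball_fin_three`). -/
def BalStmt : Prop :=
  IntegrableOn (fun u : E3 => ‖u‖⁻¹) (Metric.closedBall 0 1) ∧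
  IntegrableOn (fun u : E3 => (‖u‖ ^ 2)⁻¹) (Metric.closedBall 0 1) ∧
  (∫ u in Metric.closedBall (0 : E3) 1, ‖u‖⁻¹) = 2 * Real.pi ∧
  (∫ u in Metric.closedBall (0 : E3) 1, (‖u‖ ^ 2)⁻¹) = 4 * Real.pi

/-- **AVG** (medium-strong, uses SLB BAL).  The average over the directions.
PROOF.  `ε = 1/100`, `B` the closed unit ball, `g u = V {x ∈ K | |inner x u| ≤ ε}`. Tonelli: `∫_B g = ∫_(x ∈ K) V {u ∈ B | |inner x u| ≤ ε} dx ≤ ∫_K 2 π ε ‖x‖⁻¹ ≤ 2 π ε * 0.69765 V` (SLB; `x = 0` is a null set). From below, for `u ≠ 0`, with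
`δ = ε/‖u‖` and the unit vector `u/‖u‖`: `g u ≥ 2 (ε/‖u‖)(1 - ε/(1.97 ‖u‖)) 0.353 V`, so `∫_B g ≥ 2 ε 0.353 V (2 π - 4 π ε/1.97)` (BAL). Divide by `4 π ε V > 0`: `0.353 (1 - 0.02/1.97) ≤ 0.348825`, but the left side is `≥ 0.3494`. -/
def AvgStmt : Prop :=
  ∀ K : Set E3, SB K →
    (∀ u : E3, ‖u‖ = 1 → ∀ δ : ℝ, 0 ≤ δ → 2 * δ * (1 - δ / (197 / 100)) * (353 / 1000) * V K ≤
        V {x | x ∈ K ∧ |inner ℝ x u| ≤ δ}) →
    IntegrableOn (fun x : E3 => ‖x‖⁻¹) K → ∫ x in K, ‖x‖⁻¹ ≤ 69765 / 100000 * V K → False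

/-- **GOD** (easy-medium, uses ISO INV UNI INC NRV AVG).  Every symmetric convex body is good.
PROOF.  Suppose not; `T` of ISO, `K' = T '' K`, `SB K'`, `¬ Good K'` (INV), `∫_K' x_i x_j = V δ_ij`. UNI for all unit vectors, INC: `closedBall 0 1.97 ⊆ K' ⊆ closedBall 0 2.8`; `∫_K' ‖x‖^2 = ∑ ∫ x_i^2 = 3 V`; NRV; AVG: contradiction. -/
def GodStmt : Prop := ∀ K : Set E3, SB K → Good K

/-! ### Block Z: the packing -/

/-- **LPD** (medium-strong, no hypotheses).  The density of a lattice packing.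
PROOF.  `f` = an enumeration (`Denumerable`) of the translations by `2 ∑ n_i v_i`, `n : Fin 3 → ℤ`. Disjoint interiors: the difference of two lattice vectors is a nonzero lattice vector (translate). Density: `K ⊆ ball 0 ρ`, `F = {∑ s_i (2 v_i) | s_i ∈ [0,1)}` has
volume `8 dt v` (`> 0`) and diameter `≤ d`. The translates of `F` by the lattice vectors of norm `≤ R - ρ` cover `ball 0 (R - ρ - d)`, so their number is at least `vol (ball (R - ρ - d))/(8 dt v)`; the corresponding translates of `K` are inside `ball 0 R` and have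
disjoint interiors; the boundary of a convex set is a null set (`Convex.addHaar_frontier`), so the union has volume at least (number) `* V K`. The quotient by `vol (ball R)` is at least `(V K/(8 dt v)) ((R - ρ - d)/R)^3`, which tends to
`V K/(8 dt v)`. -/
def LpdStmt : Prop :=
  ∀ (K : Set E3) (v : Fin 3 → E3), IsCompact K → Convex ℝ K → (interior K).Nonempty → 0 < dt v →
    (∀ n : Fin 3 → ℤ, n ≠ 0 → Disjoint (interior K)
      ((fun x => x + (2 : ℝ) • ∑ i, (n i : ℝ) • v i) '' interior K)) →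
    ∃ f : ℕ → (E3 ≃ᵢ E3), (∀ i j : ℕ, i ≠ j →
        Disjoint (interior ((f i) '' K)) (interior ((f j) '' K))) ∧
      ENNReal.ofReal (V K / (8 * dt v)) ≤ Filter.limsup
        (fun R : ℝ => volume ((⋃ i : ℕ, (f i) '' K) ∩ Metric.ball (0 : E3) R) /
          volume (Metric.ball (0 : E3) R)) Filter.atTop

/-- **ADJ** (easy, no hypotheses).  Admissible lattices give packings.
PROOF.  If `x` and `y = x - 2 λ` are interior in `K`, then `-y ∈ interior K` (symmetry) and `λ = (x + (-y))/2` is interior (convexity), contradiction to `Adm`. -/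
def AdjStmt : Prop :=
  ∀ (K : Set E3) (v : Fin 3 → E3), SB K → Adm K v → ∀ n : Fin 3 → ℤ, n ≠ 0 →
    Disjoint (interior K) ((fun x => x + (2 : ℝ) • ∑ i, (n i : ℝ) • v i) '' interior K)

end Pool.Agent.UL3
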