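import Mathlib

/-!
# Squad UL3 (MP_c7c9bf_co): lattice packings of centrally symmetric convex bodies in 3-space

THEOREM. Every centrally symmetric convex body in 3-space has a lattice packing of density at least
`1 / sqrt 3`. Paper proof: note 3918 of the team database (helper31).

All rows: file `Pool/Agent/HelperNN_UL3/XXX.lean`, import the file of the statement, namespace
`Pool.Agent.UL3.HNN`, theorem `xxx (hypotheses = the statements of the column uses, in this order) : XxxStmt`.
-/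

set_option autoImplicit false

namespace Pool.Agent.UL3

open MeasureTheory Set

/-- 3-space -/
abbrev E3 : Type := EuclideanSpace ℝ (Fin 3)

/-- a centrally symmetric convex body (centre `0`) -/
structure SB (K : Set E3) : Prop where
  cpt : IsCompact K
  cvx : Convex ℝ K
  sym : ∀ x ∈ K, -x ∈ K
  int : (interior K).Nonempty

/-- the volume -/
noncomputable def V (K : Set E3) : ℝ := (volume : Measure E3).real K

/-- no point of the lattice generated by `v`, except `0`, is in the interior of `K` -/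
def Adm (K : Set E3) (v : Fin 3 → E3) : Prop :=
  ∀ n : Fin 3 → ℤ, n ≠ 0 → (∑ i, (n i : ℝ) • v i) ∉ interior K

/-- the determinant of the lattice generated by `v` -/
noncomputable def dt (v : Fin 3 → E3) : ℝ := |(Matrix.of fun i j => v i j).det|

/-- there is an admissible lattice of determinant at most `(sqrt 3 / 8) V` (then twice the lattice
gives a packing of density at least `1 / sqrt 3`) -/
def Good (K : Set E3) : Prop :=
  ∃ v : Fin 3 → E3, 0 < dt v ∧ Adm K v ∧ dt v ≤ Real.sqrt 3 / 8 * V K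

/-! ### The plane -/

/-- a centrally symmetric convex body in the plane (centre `0`) -/
structure PB (M : Set (ℝ × ℝ)) : Prop where
  cpt : IsCompact M
  cvx : Convex ℝ M
  sym : ∀ x ∈ M, -x ∈ M
  int : (interior M).Nonempty

/-- the determinant of two vectors of the plane -/
def cr (a b : ℝ × ℝ) : ℝ := a.1 * b.2 - a.2 * b.1

/-- no point of the lattice generated by `a`, `b`, except `0`, is in the interior of `M` -/
def Adm2 (M : Set (ℝ × ℝ)) (a b : ℝ × ℝ) : Prop :=
  ∀ m n : ℤ, (m ≠ 0 ∨ n ≠ 0) → (m : ℝ) • a + (n : ℝ) • b ∉ interior M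

/-! ### Sections -/

/-- the point above `p` at height `t` -/
noncomputable def up (p : ℝ × ℝ) (t : ℝ) : E3 := WithLp.toLp 2 ![p.1, p.2, t]

/-- the section of `K` at height `t` -/
def sec (K : Set E3) (t : ℝ) : Set (ℝ × ℝ) := {p | up p t ∈ K}

/-- the area of the section of `K` at height `t` -/
noncomputable def al (K : Set E3) (t : ℝ) : ℝ := (volume : Measure (ℝ × ℝ)).real (sec K t)

/-- the height of `K` above `0` -/
noncomputable def hgt (K : Set E3) : ℝ := sSup ((fun x : E3 => x 2) '' K)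

/-- A profile: `G` is concave on `[0, H]`, `G 0 = 1`, `0 ≤ G ≤ 1`, `∫ G ^ 2 = 1 / 2`, `3 / 4 ≤ H` and
`G (3/4) ≥ 0.5372`. -/
structure Pf (H : ℝ) (G : ℝ → ℝ) : Prop where
  cc : ConcaveOn ℝ (Icc 0 H) G
  zero : G 0 = 1
  rng : ∀ x ∈ Icc (0 : ℝ) H, 0 ≤ G x ∧ G x ≤ 1
  mass : ∫ x in (0 : ℝ)..H, G x ^ 2 = 1 / 2
  le : 3 / 4 ≤ H
  low : 1343 / 2500 ≤ G (3 / 4)

theorem up_zero (p : ℝ × ℝ) (t : ℝ) : up p t 0 = p.1 := rfl

theorem up_one (p : ℝ × ℝ) (t : ℝ) : up p t 1 = p.2 := rfl

theorem up_two (p : ℝ × ℝ) (t : ℝ) : up p t 2 = t := rfl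

theorem mem_sec (K : Set E3) (t : ℝ) (p : ℝ × ℝ) : p ∈ sec K t ↔ up p t ∈ K := Iff.rfl

theorem up_add (p q : ℝ × ℝ) (s t : ℝ) : up p s + up q t = up (p + q) (s + t) := by
  ext i
  fin_cases i <;> rfl

theorem up_smul (c : ℝ) (p : ℝ × ℝ) (t : ℝ) : c • up p t = up (c • p) (c * t) := by
  ext i
  fin_cases i <;> rfl

theorem up_neg (p : ℝ × ℝ) (t : ℝ) : -up p t = up (-p) (-t) := by
  ext i
  fin_cases i <;> rfl

theorem up_self (x : E3) : up (x 0, x 1) (x 2) = x := by
  ext i
  fin_cases i <;> rfl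

/-- `0` is in the interior of a symmetric convex body -/
theorem SB.zero_mem {K : Set E3} (h : SB K) : (0 : E3) ∈ interior K := by
  obtain ⟨x, hx⟩ := h.int
  have h1 : -x ∈ K := h.sym x (interior_subset hx)
  have h2 := h.cvx.combo_interior_self_mem_interior hx h1 (a := 1 / 2) (b := 1 / 2)
    (by norm_num) (by norm_num) (by norm_num)
  have h3 : (1 / 2 : ℝ) • x + (1 / 2 : ℝ) • -x = 0 := by module
  rwa [h3] at h2

theorem PB.zero_mem {M : Set (ℝ × ℝ)} (h : PB M) : (0 : ℝ × ℝ) ∈ interior M := by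
  obtain ⟨x, hx⟩ := h.int
  have h1 : -x ∈ M := h.sym x (interior_subset hx)
  have h2 := h.cvx.combo_interior_self_mem_interior hx h1 (a := 1 / 2) (b := 1 / 2)
    (by norm_num) (by norm_num) (by norm_num)
  have h3 : (1 / 2 : ℝ) • x + (1 / 2 : ℝ) • -x = 0 := by module
  rwa [h3] at h2

end Pool.Agent.UL3
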